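import Mathlib
import Pool.Agent.Helper6.TS.Stmt

set_option autoImplicit false

namespace Pool.Agent.Results.MP_2b710e_gt.NilpotentlyStandard

open Pool.Agent.Helper6.TS

/-- Let `f` be a group trisection with parameters `(g; k 0, k 1, k 2)`. Types `t` of the handles with `k l` handles of
type `l` exist if and only if `g = k 0 + k 1 + k 2`. Let `t` be such types. Then the standard triple `std t` is a group
trisection with the same parameters and trivial total group, and the total group of `f` is perfect (with
`g = k 0 + k 1 + k 2` this means that the 4-manifold is a homology 4-sphere) if and only if `f` is standard modulo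
every term of the lower central series, compatibly. -/
theorem result (g : ℕ) (k : Fin 3 → ℕ) (f : Fin 3 → (Surf g →* FreeGroup (Fin g))) (hf : GroupTrisection g k f) :
    ((∃ t : Fin g → Fin 3, numType t = k) ↔ g = k 0 + k 1 + k 2) ∧
    ∀ t : Fin g → Fin 3, numType t = k →
      GroupTrisection g k (std t) ∧ TotalTrivial (std t) ∧ (TotalPerfect f ↔ StandardAtAllLevels f t) := by
  refine ⟨?_, fun t ht => ?_⟩
  · rw [← types_exist k]
    constructor
    · rintro ⟨t, rfl⟩
      exact ⟨t, fun l => rfl⟩
    · rintro ⟨t, ht⟩
      exact ⟨t, funext ht⟩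
  · have ht' : ∀ l, Fintype.card {i // t i = l} = k l := fun l => congrFun ht l
    have hf' : IsTrisection g k f := ⟨hf.surj, hf.sector⟩
    refine ⟨⟨(std_tri k t ht').surj, (std_tri k t ht').sector⟩, std_total t, (perfect_iff f).trans ?_⟩
    constructor
    · intro h
      obtain ⟨θ, ψ, h1, h2, h3⟩ := main hf' t ht' h
      exact ⟨⟨θ, h2⟩, fun j => ⟨ψ j, h3 j⟩, fun j c y => h1 j c y⟩
    · rintro ⟨θ, ψ, h⟩
      exact perfect_of_one hf.surj (θ.aut 1) (fun j => (ψ j).aut 1) (fun j y => h j 1 y)

end Pool.Agent.Results.MP_2b710e_gt.NilpotentlyStandard
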