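import Mathlib
import Pool.Agent.Helper69.TPF.Asm

set_option autoImplicit false

namespace Pool.Agent.Results.MP_2b710e_gt.ProfinitelyStandard

open Pool.Agent.Helper6.TS Pool.Agent.Helper69.TPF

/-- Let `f` be a group trisection with parameters `(g; k 0, k 1, k 2)` such that `k l = 0` for some `l` (the sector `l`
is a 4-ball). Then the total group of `f` is trivial. Types `t` of the handles with `k j` handles of type `j` exist if
and only if `g = k 0 + k 1 + k 2` (the 4-manifold is a homotopy 4-sphere). For all such types `t` the standard triple
`std t` is a group trisection with the same parameters and trivial total group, and `f` is profinitely standard: there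
are compatible automorphisms of all the quotients of level `n` of the surface group and of the three free groups which
carry the standard triple to `f`. -/
theorem result (g : ℕ) (k : Fin 3 → ℕ) (f : Fin 3 → (Surf g →* FreeGroup (Fin g))) (hf : GroupTrisection g k f)
    (l : Fin 3) (hl : k l = 0) :
    TotalTrivial f ∧ ((∃ t : Fin g → Fin 3, numType t = k) ↔ g = k 0 + k 1 + k 2) ∧
    ∀ t : Fin g → Fin 3, numType t = k →
      GroupTrisection g k (std t) ∧ TotalTrivial (std t) ∧ StandardAtAllFiniteLevels f t := by
  refine ⟨?_, ?_, fun t ht => ?_⟩
  · have h := hex_top hf l hl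
    show (f 0).ker ⊔ (f 1).ker ⊔ (f 2).ker = ⊤
    rw [← top_le_iff, ← h]
    have h0 : ∀ j, (f j).ker ≤ (f 0).ker ⊔ (f 1).ker ⊔ (f 2).ker := by
      intro j
      fin_cases j
      · exact le_sup_left.trans le_sup_left
      · exact le_sup_right.trans le_sup_left
      · exact le_sup_right
    exact sup_le (h0 _) (h0 _)
  · rw [← types_exist k]
    constructor
    · rintro ⟨t, rfl⟩
      exact ⟨t, fun l => rfl⟩
    · rintro ⟨t, ht⟩
      exact ⟨t, funext ht⟩
  · have ht' : ∀ l, Fintype.card {i // t i = l} = k l := fun l => congrFun ht l
    exact ⟨⟨(std_tri k t ht').surj, (std_tri k t ht').sector⟩, std_total t, aFIN g k f hf l hl t ht⟩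

end Pool.Agent.Results.MP_2b710e_gt.ProfinitelyStandard
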